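import Pool.Agent.MP_ed9623_an.H77.SpecZ
import Pool.Agent.MP_ed9623_an.H64.Ana4

/-! In the zone the convective derivative of the vorticity is analytic in space. -/

open MeasureTheory Filter Topology Set
open scoped ContDiff

namespace Pool.Agent.MP_ed9623_an.H77

open H64

namespace AnaZ

theorem loc {O : Set ST} (o : IsOpen O) {f : ST → ℝ} (h : ∀ y ∈ O, ∀ n : ℕ, ContDiffAt ℝ n f y)
    {z : ST} (hz : z ∈ O) : ∃ F : SA ST, F.1 =ᶠ[𝓝 z] f := by
  obtain ⟨r, hr, hrf⟩ := Metric.isOpen_iff.1 o z hz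
  let b : ContDiffBump z := ⟨r / 3, r / 2, by positivity, by linarith⟩
  refine ⟨⟨fun y => b y * f y, contDiff_infty.2 fun n => contDiff_iff_contDiffAt.2 fun y => ?_⟩, ?_⟩
  · by_cases hy : y ∈ Metric.ball z r
    · exact b.contDiff.contDiffAt.mul (h y (hrf hy) n)
    · have : y ∉ tsupport b := by
        rw [b.tsupport_eq]
        exact fun h => hy (Metric.closedBall_subset_ball (by simp only [b]; linarith) h)
      refine (contDiffAt_const (c := (0 : ℝ))).congr_of_eventuallyEq ?_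
      filter_upwards [notMem_tsupport_iff_eventuallyEq.1 this] with w hw
      rw [hw]; simp
  · filter_upwards [b.eventuallyEq_one] with y hy
    change b y * f y = f y
    rw [hy]; simp

theorem ana_D {f : SA PP} {x : PP} (h : AnalyticAt ℝ f.1 x) (e : PP) :
    AnalyticAt ℝ (H64.D e f).1 x :=
  ((ContinuousLinearMap.apply ℝ ℝ e).analyticAt _).comp h.fderiv

/-- The heat operator on smooth functions. -/
noncomputable def ht (u : SA ST) : SA ST :=
  H64.D e1 (H64.D e1 u) + H64.D e2 (H64.D e2 u) - dt u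

theorem ht_zero {u : SA ST} {f : ST → ℝ} {z : ST} (h : u.1 =ᶠ[𝓝 z] f)
    (h0 : ∀ᶠ y in 𝓝 z, Lh f y = 0) (e : ST) : ∀ᶠ y in 𝓝 z, (H64.D e (ht u)).1 y = 0 := by
  have h1 : (ht u).1 =ᶠ[𝓝 z] fun _ => 0 := by
    filter_upwards [h.eventually_nhds, h0] with y a b
    exact (Lh_congr a).trans b
  filter_upwards [pd_congr e h1] with y a
  exact a.trans (pd_const e y 0)

theorem vort_eq (u1 u2 : SA ST) :
    dt (H64.D e1 u2 - H64.D e2 u1) - (H64.D e1 (H64.D e1 (H64.D e1 u2 - H64.D e2 u1))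
      + H64.D e2 (H64.D e2 (H64.D e1 u2 - H64.D e2 u1)))
      + (0 : ℝ) • (H64.D e1 (u1 * (H64.D e1 u2 - H64.D e2 u1))
      + H64.D e2 (u2 * (H64.D e1 u2 - H64.D e2 u1))) - up 0
      = H64.D e2 (ht u1) - H64.D e1 (ht u2) := by
  have c : ∀ f : SA ST, H64.D e2 (H64.D e1 f) = H64.D e1 (H64.D e2 f) := D_comm _ _
  have c1 : ∀ f : SA ST, H64.D e1 (dt f) = dt (H64.D e1 f) := D_comm _ _
  have c2 : ∀ f : SA ST, H64.D e2 (dt f) = dt (H64.D e2 f) := D_comm _ _
  have u : up 0 = 0 := rfl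
  simp only [ht, u, zero_smul, map_sub, map_add, c, c1, c2]
  ring

end AnaZ

open AnaZ

theorem rowAnaZ : OfAnaZ := by
  intro ρ x t₀ ε W hρ h t ht x' hx'
  have o1 : IsOpen {y : ST | ρ y.2 < 0} := isOpen_lt (hρ.comp continuous_snd) continuous_const
  have o : IsOpen {y : ST | y.1 ∈ Metric.ball t₀ ε ∧ y.2 ∈ Metric.ball x ε ∧ ρ y.2 < 0} :=
    (Metric.isOpen_ball.preimage continuous_fst).inter
      ((Metric.isOpen_ball.preimage continuous_snd).inter o1)
  have hz : ((t, x') : ST) ∈ {y : ST | y.1 ∈ Metric.ball t₀ ε ∧ y.2 ∈ Metric.ball x ε ∧ ρ y.2 < 0} :=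
    ⟨ht, hx'.2, hx'.1⟩
  choose u hu using fun j => loc o (f := W j) (fun y hy n => by
    obtain ⟨F, a, b⟩ := h.sm j y hy.1 hy.2.1 n
    rw [nhdsWithin_eq_nhds.2 (o1.mem_nhds hy.2.2)] at b
    exact a.congr_of_eventuallyEq b) hz
  have he := Eventually.mono (o.mem_nhds hz) fun y hy => h.eq y hy.1 hy.2.1 hy.2.2
  obtain ⟨a0, a1⟩ := ana_local (u 0) (u 1) 0 (σ := 0) (by norm_num) (z := (t, x'))
    analyticAt_const (by
      rw [vort_eq]
      filter_upwards [he, pd_congr e1 (hu 0), pd_congr e2 (hu 1),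
        ht_zero (hu 0) (he.mono fun _ a => a.1) e2,
        ht_zero (hu 1) (he.mono fun _ a => a.2.1) e1] with y a b c d e
      exact ⟨(congrArg₂ (· + ·) b c).trans a.2.2.1, (congrArg₂ (· - ·) d e).trans (sub_self 0)⟩)
  have hv : (H64.D e1 (u 1) - H64.D e2 (u 0)).1 =ᶠ[𝓝 (t, x')] vo W :=
    (pd_congr e1 (hu 1)).sub (pd_congr e2 (hu 0))
  have hc : (u 0 * H64.D e1 (H64.D e1 (u 1) - H64.D e2 (u 0))
      + u 1 * H64.D e2 (H64.D e1 (u 1) - H64.D e2 (u 0))).1 =ᶠ[𝓝 (t, x')] cv W :=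
    ((hu 0).mul (pd_congr e1 hv)).add ((hu 1).mul (pd_congr e2 hv))
  have av : AnalyticAt ℝ (d1 (sl t (u 1)) - d2 (sl t (u 0))).1 x' := (ana_D a1 _).sub (ana_D a0 _)
  have ac : AnalyticAt ℝ (sl t (u 0 * H64.D e1 (H64.D e1 (u 1) - H64.D e2 (u 0))
      + u 1 * H64.D e2 (H64.D e1 (u 1) - H64.D e2 (u 0)))).1 x' := by
    rw [map_add, map_mul, map_mul, sl_e1, sl_e2, map_sub, sl_e1, sl_e2]
    exact (a0.mul (ana_D av _)).add (a1.mul (ana_D av _))
  exact ac.congr (hc.comp_tendsto (Continuous.prodMk_right t).continuousAt)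

end Pool.Agent.MP_ed9623_an.H77
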