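import Pool.Agent.MP_ed9623_an.H77.SpecW

/-! Facts on dual bounds. -/

open MeasureTheory Filter Topology Set
open scoped ContDiff

namespace Pool.Agent.MP_ed9623_an.H77

open H64

namespace Hb

theorem der (hR : RieszS) (O : Set P) (k : ℕ) (f : P → ℝ) (R : ℝ) (hf : M2 f) (h0 : 0 ≤ R)
    (h : HB O (k + 1) f R) :
    ∃ g : Fin 2 → P → ℝ, ∀ i, M2 (g i) ∧ nm (g i) ≤ R ∧ WD O (ee i) f (g i) ∧ HB O k (g i) R := by
  have key : ∀ i : Fin 2, ∃ g, M2 g ∧ nm g ≤ R ∧ WD O (ee i) f g := fun i => by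
    obtain ⟨g, a, b, c⟩ := hR O (fun φ => -∫ x, f x * pd (ee i) φ x) R h0
      (fun φ ψ hφ hψ => by
        simp only [pd_add (ee i) (sm_diff hφ.1 _) (sm_diff hψ.1 _), mul_add]
        rw [integral_add (hf.int_mul (hφ.pd _).m2) (hf.int_mul (hψ.pd _).m2), neg_add])
      (fun c φ hφ => by
        simp only [pd_const_mul (ee i) c (sm_diff hφ.1 _), mul_left_comm _ c]
        rw [integral_const_mul, mul_neg])
      (fun φ hφ => by
        rw [abs_neg]
        exact h [i] (by simp) φ hφ)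
    exact ⟨g, a, b, fun φ hφ => by rw [← c φ hφ, neg_neg]⟩
  choose g hg using key
  exact ⟨g, fun i => ⟨(hg i).1, (hg i).2.1, (hg i).2.2, h.der (hg i).2.2⟩⟩

theorem ind (hR : RieszS) (O : Set P) (f : P → ℝ) (R : ℝ) (hO : IsOpen O) (hf : M2 f) (h0 : 0 ≤ R)
    (h : HB O 0 f R) : nm (O.indicator f) ≤ R := by
  obtain ⟨g, a, b, c⟩ := hR O (fun φ => ∫ x, f x * φ x) R h0
    (fun φ ψ hφ hψ => by
      simp only [mul_add]
      rw [integral_add (hf.int_mul hφ.m2) (hf.int_mul hψ.m2)])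
    (fun c φ _ => by
      simp only [mul_left_comm _ c]
      rw [integral_const_mul])
    (fun φ hφ => h [] le_rfl φ hφ)
  refine (nm_mono a ((ae_eq_of_int hO hf a c).mono fun x hx => ?_)).trans b
  by_cases hx' : x ∈ O
  · rw [indicator_of_mem hx', hx hx']
  · rw [indicator_of_notMem hx', abs_zero]
    exact abs_nonneg _

theorem mul0 (O : Set P) (m : P → ℝ) (hm : Test univ m) : ∃ C : ℝ, 0 ≤ C ∧
    HB O 0 m C ∧ ∀ f R, 0 ≤ R → HB O 0 f R → HB O 0 (fun p => m p * f p) (C * R) := by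
  obtain ⟨B, b0, hB⟩ := hm.bd
  have n0 := nm_nonneg m
  refine ⟨nm m + B, by linarith, HB.zero hm.m2 (by linarith), fun f R h0 h l hl φ hφ => ?_⟩
  obtain rfl := List.length_eq_zero_iff.1 (Nat.le_zero.1 hl)
  have h1 := h [] le_rfl _ (hφ.smul hm.1)
  have h2 := nm_bmul hφ.m2 b0 (Eventually.of_forall hB)
  have e : (fun x => m x * f x * DL [] φ x) = fun x => f x * DL [] (fun x => m x * φ x) x :=
    funext fun x => by simp only [DL_nil]; ring
  rw [e]
  refine h1.trans ?_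
  nlinarith [mul_le_mul_of_nonneg_left h2 h0, mul_nonneg (mul_nonneg n0 h0) (nm_nonneg φ)]

theorem mulk (hR : RieszS) (O : Set P) (k : ℕ) : ∀ m : P → ℝ, Test univ m → ∃ C : ℝ, 0 ≤ C ∧
    HB O k m C ∧ ∀ f R, M2 f → 0 ≤ R → HB O k f R → HB O k (fun p => m p * f p) (C * R) := by
  induction k with
  | zero =>
    intro m hm
    obtain ⟨C, a, b, c⟩ := mul0 O m hm
    exact ⟨C, a, b, fun f R _ => c f R⟩
  | succ k ih =>
    intro m hm
    obtain ⟨C0, a0, b0, c0⟩ := mul0 O m hm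
    obtain ⟨C1, a1, -, c1⟩ := ih m hm
    choose D a2 b2 c2 using fun i : Fin 2 => ih _ (hm.pd (ee i))
    have hD : ∀ i, D i ≤ D 0 + D 1 := fun i => by
      fin_cases i
      · exact le_add_of_nonneg_right (a2 1)
      · exact le_add_of_nonneg_left (a2 0)
    have d0 := a2 0
    have d1 := a2 1
    refine ⟨C0 + C1 + (D 0 + D 1), by linarith, HB.succ (b0.mono subset_rfl le_rfl (by linarith))
      (fun i => WD.of_cd (contDiff_infty.1 hm.1 1) O (ee i))
      (fun i => (b2 i).mono subset_rfl le_rfl (by linarith [hD i])), fun f R hf h0 h => ?_⟩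
    obtain ⟨g, hg⟩ := der hR O k f R hf h0 h
    refine HB.succ ((c0 f R h0 (h.mono subset_rfl (Nat.zero_le _) le_rfl)).mono subset_rfl le_rfl
      (mul_le_mul_of_nonneg_right (by linarith) h0))
      (fun i => (hg i).2.2.1.smul hf (hg i).1 hm.1) fun i => ?_
    refine ((c1 _ R (hg i).1 h0 (hg i).2.2.2).add
      (c2 i f R hf h0 (h.mono subset_rfl (Nat.le_succ k) le_rfl)) ((hg i).1.tmul hm)
      (hf.tmul (hm.pd _))).mono subset_rfl le_rfl ?_
    rw [← add_mul]
    exact mul_le_mul_of_nonneg_right (by linarith [hD i]) h0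

end Hb

theorem rowHb : OfHb := by
  intro hR
  refine ⟨Hb.der hR, Hb.ind hR, fun O k m hO hm => ?_⟩
  obtain ⟨χ, hχ, -, h1⟩ := exists_cut hO.isCompact_closure isOpen_univ (subset_univ _)
  have h2 : ∀ p ∈ O, χ p = 1 := fun p hp => h1.self_of_nhdsSet p (subset_closure hp)
  obtain ⟨C, a, b, c⟩ := Hb.mulk hR O k _ (hχ.muls hm)
  exact ⟨C, a, b.congr (Eventually.of_forall fun p hp => by rw [h2 p hp, one_mul]),
    fun f R hf h0 h => (c f R hf h0 h).congr
      (Eventually.of_forall fun p hp => by rw [h2 p hp, one_mul])⟩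

end Pool.Agent.MP_ed9623_an.H77
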